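import Mathlib

set_option autoImplicit false

namespace Pool.Agent.Results.MP_7a0e32_co.Frac

/-- Real symmetric matrices whose off-diagonal pattern is the graph. -/
def Fits {n : ℕ} (G : SimpleGraph (Fin n)) (A : Matrix (Fin n) (Fin n) ℝ) : Prop :=
  A.IsSymm ∧ ∀ i j, i ≠ j → (A i j ≠ 0 ↔ G.Adj i j)

/-- Maximum nullity. -/
noncomputable def maxNull {n : ℕ} (G : SimpleGraph (Fin n)) : ℕ :=
  sSup {k | ∃ A, Fits G A ∧ Module.finrank ℝ (LinearMap.ker A.mulVecLin) = k}

/-- A fort: nonempty, and no outside vertex has exactly one neighbour in it. -/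
def IsFort {n : ℕ} (G : SimpleGraph (Fin n)) (F : Finset (Fin n)) : Prop :=
  F.Nonempty ∧ ∀ v, v ∉ F → ¬ ∃! w, w ∈ F ∧ G.Adj v w

/-- Fractional zero forcing number. -/
noncomputable def zStar {n : ℕ} (G : SimpleGraph (Fin n)) : ℝ :=
  sInf {s | ∃ x : Fin n → ℝ, (∀ v, 0 ≤ x v) ∧
    (∀ F, Minimal (IsFort G) F → 1 ≤ ∑ v ∈ F, x v) ∧ s = ∑ v, x v}

section Example

def edges : List (Fin 15 × Fin 15) :=
  [(0, 4), (0, 7), (0, 9), (0, 10), (0, 13), (1, 4), (1, 7), (1, 8), (1, 10), (1, 11), (2, 6),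
    (2, 11), (3, 5), (3, 11), (5, 9), (6, 10), (7, 8), (7, 11), (9, 11), (9, 14), (10, 11),
    (10, 12)]

def adjB (u v : Fin 15) : Bool := edges.contains (u, v) || edges.contains (v, u)

lemma adjB_symm : ∀ u v, adjB u v = true → adjB v u = true := by decide +kernel
lemma adjB_irr : ∀ u, adjB u u = false := by decide +kernel

def G0 : SimpleGraph (Fin 15) where
  Adj u v := adjB u v = true
  symm := ⟨adjB_symm⟩
  loopless := ⟨fun u h => by simp [adjB_irr u] at h⟩

/-- check a forcing sequence; `D0` zero diagonal entries, `D1` nonzero diagonal entries -/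
def chk (D0 D1 : List (Fin 15)) : List (Fin 15 × Fin 15) → List (Fin 15) → Bool
  | [], S => decide (∀ v, v ∈ S)
  | (u, w) :: st, S =>
    (adjB u w || (u == w && D1.contains u)) &&
      decide (∀ y, y ≠ w → (adjB u y = true ∨ (y = u ∧ u ∉ D0)) → y ∈ S) &&
      chk D0 D1 st (w :: S)

lemma chk_sound (A : Matrix (Fin 15) (Fin 15) ℝ) (hA : Fits G0 A) (D0 D1 : List (Fin 15))
    (h0 : ∀ u ∈ D0, A u u = 0) (h1 : ∀ u ∈ D1, A u u ≠ 0)
    (x : Fin 15 → ℝ) (hx : A.mulVec x = 0) :
    ∀ (st : List (Fin 15 × Fin 15)) (S : List (Fin 15)), chk D0 D1 st S = true →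
      (∀ v ∈ S, x v = 0) → ∀ v, x v = 0 := by
  intro st
  induction st with
  | nil =>
    intro S h hS v
    simp only [chk, decide_eq_true_eq] at h
    exact hS v (h v)
  | cons p st ih =>
    obtain ⟨u, w⟩ := p
    intro S h hS
    simp only [chk, Bool.and_eq_true, decide_eq_true_eq] at h
    obtain ⟨⟨k1, k2⟩, k3⟩ := h
    have hw : A u w ≠ 0 := by
      rcases Bool.or_eq_true_iff.1 k1 with k1 | k1
      · have hne : u ≠ w := by
          rintro rfl
          simp [adjB_irr] at k1
        exact (hA.2 u w hne).2 k1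
      · simp only [Bool.and_eq_true, beq_iff_eq, List.contains_iff_mem] at k1
        obtain ⟨rfl, h⟩ := k1
        exact h1 u h
    have hrow : ∑ y, A u y * x y = 0 := congrFun hx u
    rw [Finset.sum_eq_single w] at hrow
    · apply ih (w :: S) k3
      intro v hv
      rcases List.mem_cons.1 hv with rfl | hv
      · exact (mul_eq_zero.1 hrow).resolve_left hw
      · exact hS v hv
    · intro y _ hy
      by_cases hz : A u y = 0
      · rw [hz, zero_mul]
      · have : y ∈ S := by
          apply k2 y hy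
          by_cases hyu : y = u
          · right
            refine ⟨hyu, fun hu => ?_⟩
            subst hyu
            exact hz (h0 _ hu)
          · left
            exact (hA.2 u y (Ne.symm hyu)).1 hz
        rw [hS y this, mul_zero]
    · intro h
      exact absurd (Finset.mem_univ w) h

lemma null_le (A : Matrix (Fin 15) (Fin 15) ℝ) (hA : Fits G0 A) (D0 D1 : List (Fin 15))
    (h0 : ∀ u ∈ D0, A u u = 0) (h1 : ∀ u ∈ D1, A u u ≠ 0) (a b c : Fin 15)
    (st : List (Fin 15 × Fin 15)) (h : chk D0 D1 st [a, b, c] = true) :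
    Module.finrank ℝ (LinearMap.ker A.mulVecLin) ≤ 3 := by
  let f : LinearMap.ker A.mulVecLin →ₗ[ℝ] (Fin 3 → ℝ) :=
    (LinearMap.funLeft ℝ ℝ ![a, b, c]).comp (LinearMap.ker A.mulVecLin).subtype
  have hf : Function.Injective f := by
    rw [← LinearMap.ker_eq_bot, LinearMap.ker_eq_bot']
    intro x hx
    ext v
    refine chk_sound A hA D0 D1 h0 h1 x.1 x.2 st _ h ?_ v
    intro w hw
    simp only [List.mem_cons, List.not_mem_nil, or_false] at hw
    rcases hw with rfl | rfl | rfl
    exacts [congrFun hx 0, congrFun hx 1, congrFun hx 2]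
  simpa using LinearMap.finrank_le_finrank_of_injective hf

lemma M_le : maxNull G0 ≤ 3 := by
  apply csSup_le'
  rintro k ⟨A, hA, rfl⟩
  by_cases h : A 4 4 = 0
  · exact null_le A hA [4] [] (by simpa using h) (by simp) 2 5 14
      [(14, 9), (5, 3), (3, 11), (9, 0), (2, 6), (4, 1), (6, 10), (10, 12), (11, 7), (7, 8),
        (1, 4), (0, 13)] (by decide +kernel)
  · by_cases h' : A 14 14 = 0
    · exact null_le A hA [14] [4] (by simpa using h') (by simpa using h) 1 5 8
        [(8, 7), (14, 9), (5, 3), (3, 11), (7, 0), (9, 14), (4, 4), (1, 10), (11, 2), (0, 13),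
          (2, 6), (10, 12)] (by decide +kernel)
    · exact null_le A hA [] [4, 14] (by simp) (by simp [h, h']) 1 8 13
        [(8, 7), (13, 0), (4, 4), (7, 11), (1, 10), (0, 9), (14, 14), (9, 5), (5, 3), (11, 2),
          (2, 6), (10, 12)] (by decide +kernel)

lemma fort_of (F : Finset (Fin 15)) (hne : F.Nonempty)
    (h : ∀ u w, u ∉ F → w ∈ F → adjB u w = true → ∃ y, adjB u y = true ∧ y ≠ w ∧ y ∈ F) :
    IsFort G0 F := by
  refine ⟨hne, ?_⟩
  rintro v hv ⟨w, ⟨hw, hvw⟩, huniq⟩
  obtain ⟨y, a, b, c⟩ := h v w hv hw hvw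
  exact b (huniq y ⟨c, a⟩)

lemma fort_ge (x : Fin 15 → ℝ) (hx : ∀ v, 0 ≤ x v)
    (h : ∀ F, Minimal (IsFort G0) F → 1 ≤ ∑ v ∈ F, x v) (F : Finset (Fin 15))
    (hF : IsFort G0 F) : 1 ≤ ∑ v ∈ F, x v := by
  obtain ⟨F', h1, h2⟩ := exists_minimal_le_of_wellFoundedLT (IsFort G0) F hF
  exact (h F' h2).trans (Finset.sum_le_sum_of_subset_of_nonneg h1 fun v _ _ => hx v)

lemma Z_ge : (49 / 16 : ℝ) ≤ zStar G0 := by
  apply le_csInf
  · refine ⟨_, fun _ => 1, fun _ => zero_le_one, ?_, rfl⟩
    intro F hF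
    have := hF.1.1.card_pos
    simp only [Finset.sum_const, nsmul_eq_mul, mul_one]
    exact_mod_cast this
  · rintro s ⟨x, hx, h, rfl⟩
    have f1 := fort_ge x hx h {1, 4, 7, 12} (fort_of _ (by decide) (by decide +kernel))
    have f2 := fort_ge x hx h {2, 7, 8, 10, 12} (fort_of _ (by decide) (by decide +kernel))
    have f3 := fort_ge x hx h {3, 9, 13, 14} (fort_of _ (by decide) (by decide +kernel))
    have f4 := fort_ge x hx h {2, 4, 10, 12} (fort_of _ (by decide) (by decide +kernel))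
    have f5 := fort_ge x hx h {5, 6, 8, 11} (fort_of _ (by decide) (by decide +kernel))
    have f6 := fort_ge x hx h {1, 2, 4, 6, 7} (fort_of _ (by decide) (by decide +kernel))
    have f7 := fort_ge x hx h {3, 7, 8, 9, 14} (fort_of _ (by decide) (by decide +kernel))
    have f8 := fort_ge x hx h {2, 3, 5, 6, 12, 14} (fort_of _ (by decide) (by decide +kernel))
    have f9 := fort_ge x hx h {0, 1, 7, 13, 14} (fort_of _ (by decide) (by decide +kernel))
    have f10 := fort_ge x hx h {0, 1, 3, 5, 7, 13} (fort_of _ (by decide) (by decide +kernel))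
    simp (decide := true) only [Finset.sum_insert, Finset.mem_insert, Finset.mem_singleton,
      Finset.sum_singleton, not_false_eq_true] at f1 f2 f3 f4 f5 f6 f7 f8 f9 f10
    simp only [Fin.sum_univ_succ, Fin.sum_univ_zero]
    have e0 := hx 0
    have e1 := hx 1
    have e2 := hx 2
    have e3 := hx 3
    have e4 := hx 4
    have e5 := hx 5
    have e6 := hx 6
    have e7 := hx 7
    have e8 := hx 8
    have e9 := hx 9
    have e10 := hx 10
    have e11 := hx 11
    have e12 := hx 12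
    have e13 := hx 13
    have e14 := hx 14
    show 49 / 16 ≤ x 0 + (x 1 + (x 2 + (x 3 + (x 4 + (x 5 + (x 6 + (x 7 + (x 8 + (x 9 + (x 10 +
      (x 11 + (x 12 + (x 13 + (x 14 + 0))))))))))))))
    linarith

end Example

theorem result : ¬ ∀ (n : ℕ) (G : SimpleGraph (Fin n)), 0 < n → zStar G ≤ (maxNull G : ℝ) := by
  intro h
  have h1 := h 15 G0 (by norm_num)
  have h2 : (maxNull G0 : ℝ) ≤ 3 := by exact_mod_cast M_le
  have h3 := Z_ge
  linarith

end Pool.Agent.Results.MP_7a0e32_co.Frac
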